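import Pool.Agent.H195.GA.DecCore
import Pool.Agent.H121.GA.IfB

set_option autoImplicit false

/-! Project GA: `S_decT` and `S_decS`. -/

namespace Pool.Agent.H195.GA

theorem decT : Pool.Agent.H121.GA.S_decT := fun s D δ hs hs1 hD hδ =>
  decT_core s D δ hs hs1 hD hδ

theorem decS : Pool.Agent.H121.GA.S_decS := fun s D hs hs1 hD =>
  decS_core s D hs hs1 hD

end Pool.Agent.H195.GA
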