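import Mathlib
import Pool.Agent.H122.Z987.DecCore

set_option autoImplicit false

open scoped ENNReal
open MeasureTheory Set

/-! Fractional moment decoupling for laws with a density at most `D / (1 + |v|) ^ 4`. -/

namespace Pool.Agent.H195.GA

open Pool.Agent.H122.Z987 (w w_meas w_lt_top key fin_int)

/-- the density bound -/
def Dn (D : ℝ) (μ : Measure ℝ) : Prop :=
  ∀ A : Set ℝ, MeasurableSet A → μ A ≤ ∫⁻ v in A, ENNReal.ofReal (D / (1 + |v|) ^ 4)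

theorem dn_meas (D : ℝ) : Measurable fun v : ℝ => ENNReal.ofReal (D / (1 + |v|) ^ 4) := by
  fun_prop

theorem dn_le {D : ℝ} {μ : Measure ℝ} (h : Dn D μ) :
    μ ≤ volume.withDensity fun v => ENNReal.ofReal (D / (1 + |v|) ^ 4) := by
  rw [Measure.le_iff]
  intro A hA
  rw [withDensity_apply _ hA]
  exact h A hA

theorem dn_lint {D : ℝ} {μ : Measure ℝ} (h : Dn D μ) {A : Set ℝ} (hA : MeasurableSet A)
    {f : ℝ → ℝ≥0∞} (hf : Measurable f) :
    ∫⁻ v in A, f v ∂μ ≤ ∫⁻ v in A, ENNReal.ofReal (D / (1 + |v|) ^ 4) * f v := by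
  calc ∫⁻ v in A, f v ∂μ
      ≤ ∫⁻ v in A, f v ∂(volume.withDensity fun v => ENNReal.ofReal (D / (1 + |v|) ^ 4)) :=
        lintegral_mono' (Measure.restrict_mono le_rfl (dn_le h)) le_rfl
    _ = _ := by
        rw [restrict_withDensity hA, lintegral_withDensity_eq_lintegral_mul _ (dn_meas D) hf]
        rfl

/-- the local singularity -/
noncomputable def ph (s : ℝ) (x : ℝ) : ℝ≥0∞ :=
  (Icc (-3 : ℝ) 3).indicator (fun x => ENNReal.ofReal (|x| ^ (-s))) x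

theorem ph_meas (s : ℝ) : Measurable (ph s) := by
  unfold ph
  exact Measurable.indicator (by fun_prop) measurableSet_Icc

theorem ph_meas' (s b : ℝ) : Measurable fun v : ℝ => ph s (v - b) :=
  (ph_meas s).comp (measurable_id.sub_const b)

theorem ph_int (s : ℝ) (b : ℝ) :
    ∫⁻ v, ph s (v - b) = ∫⁻ x in Icc (-3 : ℝ) 3, ENNReal.ofReal (|x| ^ (-s)) := by
  rw [lintegral_sub_right_eq_self (ph s) b]
  unfold ph
  exact lintegral_indicator measurableSet_Icc _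

/-- the weight `(1 + v ^ 2)⁻¹` -/
theorem pi_int : ∫⁻ v : ℝ, ENNReal.ofReal ((1 + v ^ 2)⁻¹) = ENNReal.ofReal Real.pi := by
  rw [← ofReal_integral_eq_lintegral_ofReal integrable_inv_one_add_sq
    (Filter.Eventually.of_forall fun v => by positivity), integral_univ_inv_one_add_sq]

theorem one_add_sq_le (v : ℝ) : 1 + v ^ 2 ≤ (1 + |v|) ^ 2 := by
  have h1 : |v| ^ 2 = v ^ 2 := sq_abs v
  nlinarith [abs_nonneg v]

theorem inv_le (v : ℝ) : ((1 + |v|) ^ 2)⁻¹ ≤ (1 + v ^ 2)⁻¹ :=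
  inv_anti₀ (by positivity) (one_add_sq_le v)

/-- the pointwise bound -/
theorem pt_bd {s D : ℝ} (hs : 0 < s) (hs1 : s < 1) (hD : 0 < D) (β : ℂ) {v : ℝ} (hv : v ≠ β.re) :
    D / (1 + |v|) ^ 4 * ‖(v : ℂ) - β‖ ^ (-s) ≤
      (1 + ‖β‖) ^ (-s) * D * (((1 + |v|) ^ 3)⁻¹ * (|v - β.re| ^ (-s) + 1)) := by
  have hu : 0 < |v - β.re| := abs_pos.mpr (sub_ne_zero.mpr hv)
  have hux : |v - β.re| ≤ ‖(v : ℂ) - β‖ := by
    have := Complex.abs_re_le_norm ((v : ℂ) - β)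
    simpa using this
  set x : ℝ := ‖(v : ℂ) - β‖ with hx
  have hx0 : 0 < x := lt_of_lt_of_le hu hux
  set y : ℝ := 1 + |v| with hy
  have hy1 : 1 ≤ y := by rw [hy]; linarith [abs_nonneg v]
  set z : ℝ := 1 + ‖β‖ with hz
  have hz0 : 0 < z := by rw [hz]; positivity
  have hzyx : z ≤ y + x := by
    have h1 : ‖β‖ ≤ ‖(v : ℂ)‖ + ‖(v : ℂ) - β‖ := by
      have := norm_sub_le (v : ℂ) ((v : ℂ) - β)
      simpa using this
    rw [Complex.norm_real, Real.norm_eq_abs] at h1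
    rw [hz, hy]; linarith
  have h2 : z ^ s ≤ y + x ^ s := by
    calc z ^ s ≤ (y + x) ^ s := Real.rpow_le_rpow hz0.le hzyx hs.le
      _ ≤ y ^ s + x ^ s := Real.rpow_add_le_add_rpow (by linarith) hx0.le hs.le hs1.le
      _ ≤ y ^ (1 : ℝ) + x ^ s := by
          gcongr
      _ = y + x ^ s := by rw [Real.rpow_one]
  have h3 : x ^ (-s) ≤ z ^ (-s) * (y * x ^ (-s) + 1) := by
    have h4 : x ^ (-s) * x ^ s = 1 := by
      rw [← Real.rpow_add hx0, neg_add_cancel, Real.rpow_zero]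
    have h5 : z ^ (-s) * z ^ s = 1 := by
      rw [← Real.rpow_add hz0, neg_add_cancel, Real.rpow_zero]
    have h6 : 0 ≤ z ^ (-s) * x ^ (-s) := by positivity
    calc x ^ (-s) = z ^ (-s) * x ^ (-s) * z ^ s := by
          rw [mul_right_comm, h5, one_mul]
      _ ≤ z ^ (-s) * x ^ (-s) * (y + x ^ s) := mul_le_mul_of_nonneg_left h2 h6
      _ = z ^ (-s) * (y * x ^ (-s) + x ^ (-s) * x ^ s) := by ring
      _ = z ^ (-s) * (y * x ^ (-s) + 1) := by rw [h4]
  have h7 : x ^ (-s) ≤ |v - β.re| ^ (-s) := Real.rpow_le_rpow_of_nonpos hu hux (by linarith)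
  have hy0 : 0 < y := by linarith
  have hz1 : 0 ≤ z ^ (-s) := by positivity
  calc D / y ^ 4 * x ^ (-s) ≤ D / y ^ 4 * (z ^ (-s) * (y * x ^ (-s) + 1)) := by gcongr
    _ ≤ D / y ^ 4 * (z ^ (-s) * (y * |v - β.re| ^ (-s) + y)) := by gcongr
    _ = z ^ (-s) * D * ((y ^ 3)⁻¹ * (|v - β.re| ^ (-s) + 1)) := by
        field_simp

/-- the lower bound of the fractional moment -/
theorem low_bd {s D : ℝ} (hs : 0 < s) (hD : 0 < D) {μ : Measure ℝ}
    [IsProbabilityMeasure μ] (h : Dn D μ) {β : ℂ} (hβ : β.im ≠ 0) :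
    ENNReal.ofReal ((1 + 4 * D) ^ (-s) / 2 * (1 + ‖β‖) ^ (-s)) ≤
      ∫⁻ v : ℝ, ENNReal.ofReal (‖(v : ℂ) - β‖ ^ (-s)) ∂μ := by
  set K0 : ℝ := 1 + 4 * D with hK0
  have hK01 : 1 ≤ K0 := by rw [hK0]; linarith
  set A : Set ℝ := {v : ℝ | K0 < |v|} with hA
  have hAm : MeasurableSet A := measurableSet_lt (by fun_prop) (by fun_prop)
  have h1 : μ A ≤ ENNReal.ofReal (1 / 2) := by
    calc μ A ≤ ∫⁻ v in A, ENNReal.ofReal (D / (1 + |v|) ^ 4) := h A hAm
      _ ≤ ∫⁻ v in A, ENNReal.ofReal (D / (1 + K0) ^ 2) * ENNReal.ofReal ((1 + v ^ 2)⁻¹) := by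
          refine setLIntegral_mono' hAm fun v hv => ?_
          rw [← ENNReal.ofReal_mul (by positivity)]
          refine ENNReal.ofReal_le_ofReal ?_
          have hv' : K0 < |v| := hv
          have h2 : (1 + K0) ^ 2 ≤ (1 + |v|) ^ 2 := by gcongr
          calc D / (1 + |v|) ^ 4 = D * ((1 + |v|) ^ 2)⁻¹ * ((1 + |v|) ^ 2)⁻¹ := by
                field_simp
            _ ≤ D * ((1 + K0) ^ 2)⁻¹ * (1 + v ^ 2)⁻¹ := by
                gcongr ?_ * ?_ * ?_
                · exact inv_anti₀ (by positivity) h2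
                · exact inv_le v
            _ = D / (1 + K0) ^ 2 * (1 + v ^ 2)⁻¹ := by rw [div_eq_mul_inv]
      _ ≤ ∫⁻ v, ENNReal.ofReal (D / (1 + K0) ^ 2) * ENNReal.ofReal ((1 + v ^ 2)⁻¹) :=
          setLIntegral_le_lintegral _ _
      _ = ENNReal.ofReal (D / (1 + K0) ^ 2) * ENNReal.ofReal Real.pi := by
          rw [lintegral_const_mul _ (by fun_prop), pi_int]
      _ ≤ ENNReal.ofReal (1 / 2) := by
          rw [← ENNReal.ofReal_mul (by positivity)]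
          refine ENNReal.ofReal_le_ofReal ?_
          have hpi := Real.pi_le_four
          have h3 : D / (1 + K0) ^ 2 ≤ 1 / 8 := by
            rw [div_le_div_iff₀ (by positivity) (by norm_num), hK0]
            nlinarith
          calc D / (1 + K0) ^ 2 * Real.pi ≤ 1 / 8 * 4 := by gcongr
            _ = 1 / 2 := by norm_num
  have h2 : ENNReal.ofReal (1 / 2) ≤ μ Aᶜ := by
    have h3 : μ A + μ Aᶜ = 1 := by
      rw [measure_add_measure_compl hAm, measure_univ]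
    have h4 : (1 : ℝ≥0∞) ≤ ENNReal.ofReal (1 / 2) + μ Aᶜ := by
      rw [← h3]; gcongr
    have h5 : (1 : ℝ≥0∞) = ENNReal.ofReal (1 / 2) + ENNReal.ofReal (1 / 2) := by
      rw [← ENNReal.ofReal_add (by norm_num) (by norm_num)]
      norm_num
    rw [h5] at h4
    exact (ENNReal.add_le_add_iff_left ENNReal.ofReal_ne_top).mp h4
  have h6 : ∀ v ∈ Aᶜ, ENNReal.ofReal (K0 ^ (-s) * (1 + ‖β‖) ^ (-s)) ≤
      ENNReal.ofReal (‖(v : ℂ) - β‖ ^ (-s)) := by
    intro v hv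
    refine ENNReal.ofReal_le_ofReal ?_
    have hv' : |v| ≤ K0 := not_lt.1 hv
    have h7 : ‖(v : ℂ) - β‖ ≤ K0 * (1 + ‖β‖) := by
      calc ‖(v : ℂ) - β‖ ≤ ‖(v : ℂ)‖ + ‖β‖ := norm_sub_le _ _
        _ ≤ K0 + K0 * ‖β‖ := by
            rw [Complex.norm_real]
            have h8 : ‖v‖ ≤ K0 := hv'
            have h9 : 1 * ‖β‖ ≤ K0 * ‖β‖ := by gcongr
            linarith
        _ = K0 * (1 + ‖β‖) := by ring
    have h3 : 0 < ‖(v : ℂ) - β‖ := by
      rw [norm_pos_iff]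
      intro h
      apply hβ
      have := congrArg Complex.im h
      simpa using this
    rw [← Real.mul_rpow (by positivity) (by positivity)]
    exact Real.rpow_le_rpow_of_nonpos h3 h7 (by linarith)
  calc ENNReal.ofReal (K0 ^ (-s) / 2 * (1 + ‖β‖) ^ (-s))
      = ENNReal.ofReal (K0 ^ (-s) * (1 + ‖β‖) ^ (-s)) * ENNReal.ofReal (1 / 2) := by
        rw [← ENNReal.ofReal_mul (by positivity)]
        congr 1
        ring
    _ ≤ ENNReal.ofReal (K0 ^ (-s) * (1 + ‖β‖) ^ (-s)) * μ Aᶜ := by gcongr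
    _ = ∫⁻ _v in Aᶜ, ENNReal.ofReal (K0 ^ (-s) * (1 + ‖β‖) ^ (-s)) ∂μ := by
        rw [setLIntegral_const]
    _ ≤ ∫⁻ v in Aᶜ, ENNReal.ofReal (‖(v : ℂ) - β‖ ^ (-s)) ∂μ :=
        setLIntegral_mono' hAm.compl h6
    _ ≤ _ := setLIntegral_le_lintegral _ _

theorem ae_ne (b : ℝ) (A : Set ℝ) : ∀ᵐ v ∂(volume.restrict A), v ≠ b := by
  refine ae_restrict_of_ae ?_
  rw [ae_iff]
  have h0 : {a : ℝ | ¬ a ≠ b} = {b} := by ext; simp
  rw [h0]
  exact Real.volume_singleton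

/-- the pointwise bound of the singularity -/
theorem sing_bd {s t r : ℝ} (hs : 0 < s) (hst : s ≤ t) (hr : 0 < r) (hr1 : r ≤ 1) (x : ℝ) (hx : x ≠ 0) :
    ENNReal.ofReal (|x| ^ (-s)) ≤
      ENNReal.ofReal (r ^ (-s)) + ENNReal.ofReal (r ^ (t - s)) * ph t x := by
  have hx0 : 0 < |x| := abs_pos.mpr hx
  rcases le_or_gt r |x| with h | h
  · refine le_trans (ENNReal.ofReal_le_ofReal ?_) le_self_add
    exact Real.rpow_le_rpow_of_nonpos hr h (by linarith)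
  · refine le_trans ?_ le_add_self
    have hm : x ∈ Icc (-3 : ℝ) 3 := by
      have h1 : |x| ≤ 3 := by linarith
      exact abs_le.1 h1
    unfold ph
    rw [indicator_of_mem hm, ← ENNReal.ofReal_mul (by positivity)]
    refine ENNReal.ofReal_le_ofReal ?_
    have h2 : |x| ^ (-s) = |x| ^ (t - s) * |x| ^ (-t) := by
      rw [← Real.rpow_add hx0]
      congr 1
      ring
    rw [h2]
    have h3 : |x| ^ (t - s) ≤ r ^ (t - s) := Real.rpow_le_rpow hx0.le h.le (by linarith)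
    gcongr

theorem two_half {W x : ℝ≥0∞} {p : ℝ} (h1 : x ≤ ENNReal.ofReal (p / 2))
    (h2 : ENNReal.ofReal p ≤ W) : 2 * x ≤ W := by
  calc 2 * x ≤ 2 * ENNReal.ofReal (p / 2) := by gcongr
    _ = ENNReal.ofReal p := by
        rw [show (2 : ℝ≥0∞) = ENNReal.ofReal 2 by simp, ← ENNReal.ofReal_mul (by norm_num)]
        congr 1
        ring
    _ ≤ W := h2

/-- the tails -/
theorem decT_core (s D δ : ℝ) (hs : 0 < s) (hs1 : s < 1) (hD : 0 < D) (hδ : 0 < δ) :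
    ∃ K : ℝ, 0 < K ∧ ∀ (μ : Measure ℝ) [IsProbabilityMeasure μ], Dn D μ → ∀ β : ℂ, β.im ≠ 0 →
      ∫⁻ v in {v : ℝ | K < |v|}, ENNReal.ofReal (‖(v : ℂ) - β‖ ^ (-s)) ∂μ ≤
        ENNReal.ofReal δ * ∫⁻ v : ℝ, ENNReal.ofReal (‖(v : ℂ) - β‖ ^ (-s)) ∂μ := by
  set J : ℝ≥0∞ := ∫⁻ x in Icc (-3 : ℝ) 3, ENNReal.ofReal (|x| ^ (-s)) with hJ
  have hJtop : J ≠ ∞ := fin_int s hs1
  set j : ℝ := J.toReal with hj
  have hj0 : 0 ≤ j := ENNReal.toReal_nonneg
  have hJj : J = ENNReal.ofReal j := (ENNReal.ofReal_toReal hJtop).symm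
  set c1 : ℝ := (1 + 4 * D) ^ (-s) / 2 with hc1
  have hc10 : 0 < c1 := by rw [hc1]; positivity
  have hpi := Real.pi_pos
  refine ⟨D * (j + 2 * Real.pi) / (δ * c1), by positivity, ?_⟩
  set K : ℝ := D * (j + 2 * Real.pi) / (δ * c1) with hK
  have hK0 : 0 < K := by rw [hK]; positivity
  intro μ _ hμ β hβ
  set A : Set ℝ := {v : ℝ | K < |v|} with hA
  have hAm : MeasurableSet A := measurableSet_lt (by fun_prop) (by fun_prop)
  have hwm : Measurable fun v : ℝ => ENNReal.ofReal (‖(v : ℂ) - β‖ ^ (-s)) := by fun_prop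
  have hz0 : 0 ≤ (1 + ‖β‖) ^ (-s) := by positivity
  set q : ℝ := (1 + ‖β‖) ^ (-s) * D * (1 + K)⁻¹ with hq
  have hq0 : 0 ≤ q := by rw [hq]; positivity
  have h1 : ∫⁻ v in A, ENNReal.ofReal (‖(v : ℂ) - β‖ ^ (-s)) ∂μ ≤
      ENNReal.ofReal q * ∫⁻ v, (ph s (v - β.re) + 2 * ENNReal.ofReal ((1 + v ^ 2)⁻¹)) := by
    refine (dn_lint hμ hAm hwm).trans ?_
    have hm2 : Measurable fun v : ℝ => ph s (v - β.re) + 2 * ENNReal.ofReal ((1 + v ^ 2)⁻¹) := by
      exact (ph_meas' s β.re).add (by fun_prop)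
    rw [← lintegral_const_mul _ hm2]
    refine le_trans ?_ (setLIntegral_le_lintegral A _)
    refine lintegral_mono_ae ?_
    filter_upwards [ae_ne β.re A, ae_restrict_mem hAm] with v hv hvA
    have hv' : K < |v| := hvA
    rw [← ENNReal.ofReal_mul (by positivity)]
    refine (ENNReal.ofReal_le_ofReal (pt_bd hs hs1 hD β hv)).trans ?_
    have h3 : (1 + ‖β‖) ^ (-s) * D * (((1 + |v|) ^ 3)⁻¹ * (|v - β.re| ^ (-s) + 1)) ≤
        q * ((1 + v ^ 2)⁻¹ * (|v - β.re| ^ (-s) + 1)) := by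
      have h4 : ((1 + |v|) ^ 3)⁻¹ ≤ (1 + K)⁻¹ * (1 + v ^ 2)⁻¹ := by
        calc ((1 + |v|) ^ 3)⁻¹ = (1 + |v|)⁻¹ * ((1 + |v|) ^ 2)⁻¹ := by
              rw [← mul_inv]
              congr 1
              ring
          _ ≤ (1 + K)⁻¹ * (1 + v ^ 2)⁻¹ := by
              gcongr ?_ * ?_
              · exact inv_anti₀ (by positivity) (by linarith)
              · exact inv_le v
      calc (1 + ‖β‖) ^ (-s) * D * (((1 + |v|) ^ 3)⁻¹ * (|v - β.re| ^ (-s) + 1))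
          ≤ (1 + ‖β‖) ^ (-s) * D * (((1 + K)⁻¹ * (1 + v ^ 2)⁻¹) * (|v - β.re| ^ (-s) + 1)) := by
            gcongr
        _ = q * ((1 + v ^ 2)⁻¹ * (|v - β.re| ^ (-s) + 1)) := by rw [hq]; ring
    refine (ENNReal.ofReal_le_ofReal h3).trans ?_
    rw [ENNReal.ofReal_mul hq0]
    refine mul_le_mul_right ?_ _
    have h5 : ENNReal.ofReal (|v - β.re| ^ (-s)) ≤ 1 + ph s (v - β.re) := by
      have h6 := sing_bd (t := s) hs le_rfl one_pos le_rfl (v - β.re) (sub_ne_zero.mpr hv)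
      simpa using h6
    have h7 : ENNReal.ofReal ((1 + v ^ 2)⁻¹) ≤ 1 := by
      rw [← ENNReal.ofReal_one]
      refine ENNReal.ofReal_le_ofReal (inv_le_one_of_one_le₀ ?_)
      nlinarith [sq_nonneg v]
    rw [ENNReal.ofReal_mul (by positivity), ENNReal.ofReal_add (by positivity) zero_le_one,
      ENNReal.ofReal_one]
    calc ENNReal.ofReal ((1 + v ^ 2)⁻¹) * (ENNReal.ofReal (|v - β.re| ^ (-s)) + 1)
        ≤ ENNReal.ofReal ((1 + v ^ 2)⁻¹) * ((1 + ph s (v - β.re)) + 1) := by gcongr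
      _ = ENNReal.ofReal ((1 + v ^ 2)⁻¹) * ph s (v - β.re) +
          2 * ENNReal.ofReal ((1 + v ^ 2)⁻¹) := by ring
      _ ≤ 1 * ph s (v - β.re) + 2 * ENNReal.ofReal ((1 + v ^ 2)⁻¹) := by gcongr
      _ = _ := by rw [one_mul]
  have h2 : ∫⁻ v, (ph s (v - β.re) + 2 * ENNReal.ofReal ((1 + v ^ 2)⁻¹)) =
      ENNReal.ofReal (j + 2 * Real.pi) := by
    rw [lintegral_add_left (ph_meas' s β.re), ph_int s,
      lintegral_const_mul _ (by fun_prop), pi_int, ← hJ, hJj,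
      show (2 : ℝ≥0∞) = ENNReal.ofReal 2 by simp, ← ENNReal.ofReal_mul (by norm_num),
      ← ENNReal.ofReal_add hj0 (by positivity)]
  rw [h2, ← ENNReal.ofReal_mul hq0] at h1
  refine h1.trans ?_
  refine le_trans ?_ (mul_le_mul_right (low_bd hs hD hμ hβ) _)
  rw [← ENNReal.ofReal_mul hδ.le]
  refine ENNReal.ofReal_le_ofReal ?_
  rw [← hc1]
  have h8 : D * (j + 2 * Real.pi) ≤ (1 + K) * (δ * c1) := by
    have h9 : D * (j + 2 * Real.pi) = K * (δ * c1) := by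
      rw [hK]; field_simp
    rw [h9]
    have : 0 ≤ δ * c1 := by positivity
    nlinarith
  have h10 : D * (j + 2 * Real.pi) * (1 + K)⁻¹ ≤ δ * c1 := by
    rw [← div_eq_mul_inv, div_le_iff₀ (by positivity)]
    linarith
  calc q * (j + 2 * Real.pi) = (1 + ‖β‖) ^ (-s) * (D * (j + 2 * Real.pi) * (1 + K)⁻¹) := by
        rw [hq]; ring
    _ ≤ (1 + ‖β‖) ^ (-s) * (δ * c1) := by gcongr
    _ = δ * (c1 * (1 + ‖β‖) ^ (-s)) := by ring

/-- decoupling -/
theorem decS_core (s D : ℝ) (hs : 0 < s) (hs1 : s < 1) (hD : 0 < D) : ∃ c : ℝ, 0 < c ∧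
    ∀ (μ : Measure ℝ) [IsProbabilityMeasure μ], Dn D μ → ∀ α β : ℂ, β.im ≠ 0 →
        ENNReal.ofReal c * ∫⁻ v : ℝ, ENNReal.ofReal (‖(v : ℂ) - β‖ ^ (-s)) ∂μ ≤
          ∫⁻ v : ℝ, ENNReal.ofReal (‖(v : ℂ) - α‖ ^ s * ‖(v : ℂ) - β‖ ^ (-s)) ∂μ := by
  set t : ℝ := (1 + s) / 2 with ht
  have hst : s < t := by rw [ht]; linarith
  have ht1 : t < 1 := by rw [ht]; linarith
  set J : ℝ≥0∞ := ∫⁻ x in Icc (-3 : ℝ) 3, ENNReal.ofReal (|x| ^ (-t)) with hJ
  have hJtop : J ≠ ∞ := fin_int t ht1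
  set j : ℝ := J.toReal with hj
  have hj0 : 0 ≤ j := ENNReal.toReal_nonneg
  have hJj : J = ENNReal.ofReal j := (ENNReal.ofReal_toReal hJtop).symm
  set c1 : ℝ := (1 + 4 * D) ^ (-s) / 2 with hc1
  have hc10 : 0 < c1 := by rw [hc1]; positivity
  set η : ℝ := c1 / (2 * D * (4 + j)) with hη
  have hη0 : 0 < η := by rw [hη]; positivity
  set r : ℝ := min 1 (η ^ (1 / (t - s))) with hr
  have hr0 : 0 < r := lt_min one_pos (by positivity)
  have hr1 : r ≤ 1 := min_le_left _ _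
  have hts : 0 < t - s := by linarith
  have hrt : r ^ (t - s) ≤ η := by
    calc r ^ (t - s) ≤ (η ^ (1 / (t - s))) ^ (t - s) :=
          Real.rpow_le_rpow hr0.le (min_le_right _ _) hts.le
      _ = η := by
          rw [← Real.rpow_mul hη0.le, one_div, inv_mul_cancel₀ hts.ne', Real.rpow_one]
  refine ⟨r ^ s / 2, by positivity, ?_⟩
  intro μ _ hμ α β hβ
  refine key s hs μ α β hβ r hr0 ?_
  set B : Set ℝ := {v : ℝ | |v - α.re| < r} with hB
  have hBm : MeasurableSet B := measurableSet_lt (by fun_prop) (by fun_prop)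
  have hBvol : volume B = ENNReal.ofReal (2 * r) := by
    have : B = Metric.ball α.re r := by
      ext v; simp [hB, Real.dist_eq]
    rw [this, Real.volume_ball]
  have hq0 : 0 ≤ (1 + ‖β‖) ^ (-s) * D := by positivity
  have h1 : ∫⁻ v in B, w s β v ∂μ ≤ ENNReal.ofReal ((1 + ‖β‖) ^ (-s) * D) *
      ∫⁻ v in B, (ENNReal.ofReal (r ^ (-s) + 1) +
        ENNReal.ofReal (r ^ (t - s)) * ph t (v - β.re)) := by
    refine (dn_lint hμ hBm (w_meas s β)).trans ?_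
    have hm2 : Measurable fun v : ℝ => ENNReal.ofReal (r ^ (-s) + 1) +
        ENNReal.ofReal (r ^ (t - s)) * ph t (v - β.re) := by
      exact measurable_const.add ((ph_meas' t β.re).const_mul _)
    rw [← lintegral_const_mul _ hm2]
    refine lintegral_mono_ae ?_
    filter_upwards [ae_ne β.re B] with v hv
    unfold w
    rw [← ENNReal.ofReal_mul (by positivity)]
    refine (ENNReal.ofReal_le_ofReal (pt_bd hs hs1 hD β hv)).trans ?_
    have h3 : (1 + ‖β‖) ^ (-s) * D * (((1 + |v|) ^ 3)⁻¹ * (|v - β.re| ^ (-s) + 1)) ≤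
        (1 + ‖β‖) ^ (-s) * D * (|v - β.re| ^ (-s) + 1) := by
      refine mul_le_mul_of_nonneg_left ?_ hq0
      have h4 : ((1 + |v|) ^ 3)⁻¹ ≤ 1 := by
        refine inv_le_one_of_one_le₀ ?_
        exact one_le_pow₀ (by linarith [abs_nonneg v])
      have h5 : 0 ≤ |v - β.re| ^ (-s) + 1 := by positivity
      nlinarith
    refine (ENNReal.ofReal_le_ofReal h3).trans ?_
    rw [ENNReal.ofReal_mul hq0]
    refine mul_le_mul_right ?_ _
    have h6 := sing_bd (t := t) hs hst.le hr0 hr1 (v - β.re) (sub_ne_zero.mpr hv)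
    rw [ENNReal.ofReal_add (by positivity) zero_le_one,
      ENNReal.ofReal_add (by positivity) zero_le_one]
    calc ENNReal.ofReal (|v - β.re| ^ (-s)) + ENNReal.ofReal 1
        ≤ (ENNReal.ofReal (r ^ (-s)) + ENNReal.ofReal (r ^ (t - s)) * ph t (v - β.re)) +
          ENNReal.ofReal 1 := by gcongr
      _ = _ := by ring
  have h2 : ∫⁻ v in B, (ENNReal.ofReal (r ^ (-s) + 1) +
        ENNReal.ofReal (r ^ (t - s)) * ph t (v - β.re)) ≤
      ENNReal.ofReal ((r ^ (-s) + 1) * (2 * r) + r ^ (t - s) * j) := by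
    rw [lintegral_add_left measurable_const, setLIntegral_const, hBvol,
      ← ENNReal.ofReal_mul (by positivity), ENNReal.ofReal_add (by positivity) (by positivity)]
    refine add_le_add le_rfl ?_
    calc ∫⁻ v in B, ENNReal.ofReal (r ^ (t - s)) * ph t (v - β.re)
        ≤ ∫⁻ v, ENNReal.ofReal (r ^ (t - s)) * ph t (v - β.re) := setLIntegral_le_lintegral _ _
      _ = ENNReal.ofReal (r ^ (t - s)) * J := by
          rw [lintegral_const_mul _ (ph_meas' t β.re), ph_int t]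
      _ = ENNReal.ofReal (r ^ (t - s) * j) := by
          rw [hJj, ENNReal.ofReal_mul (by positivity)]
  have h3 : (r ^ (-s) + 1) * (2 * r) + r ^ (t - s) * j ≤ η * (4 + j) := by
    have h4 : r ^ (-s) * r = r ^ (t - s) * r ^ (1 - t) := by
      rw [← Real.rpow_add hr0]
      nth_rewrite 2 [← Real.rpow_one r]
      rw [← Real.rpow_add hr0]
      congr 1
      ring
    have h5 : r ^ (1 - t) ≤ 1 := Real.rpow_le_one hr0.le hr1 (by linarith)
    have h6 : r ^ (-s) * r ≤ r ^ (t - s) := by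
      rw [h4]
      have : 0 ≤ r ^ (t - s) := by positivity
      nlinarith
    have h7 : r ≤ r ^ (t - s) := by
      calc r = r ^ (1 : ℝ) := (Real.rpow_one r).symm
        _ ≤ r ^ (t - s) := Real.rpow_le_rpow_of_exponent_ge hr0 hr1 (by linarith)
    have h8 : r ^ (t - s) * j ≤ η * j := by gcongr
    nlinarith
  have h4 : ∫⁻ v in B, w s β v ∂μ ≤ ENNReal.ofReal (c1 * (1 + ‖β‖) ^ (-s) / 2) := by
    refine h1.trans ((mul_le_mul_right h2 _).trans ?_)
    rw [← ENNReal.ofReal_mul hq0]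
    refine ENNReal.ofReal_le_ofReal ?_
    calc (1 + ‖β‖) ^ (-s) * D * ((r ^ (-s) + 1) * (2 * r) + r ^ (t - s) * j)
        ≤ (1 + ‖β‖) ^ (-s) * D * (η * (4 + j)) := by gcongr
      _ = c1 * (1 + ‖β‖) ^ (-s) / 2 := by
          rw [hη]
          field_simp
  exact two_half h4 (low_bd hs hD hμ hβ)

end Pool.Agent.H195.GA
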